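import Pool.Agent.Q192.SGD.Main

/-! MP_1fa864_co, Q1: yes, `(Γ_s(T) - γ_s(T)) / n ≤ 4/7` for every tree of order `n`. -/

set_option autoImplicit false

open Q192.SGD

namespace Pool.Agent.Results.MP_1fa864_co.SignedDominationGap

/-- For every finite tree with `n` vertices, `Γ_s - γ_s ≤ 4 (n - 1) / 7`; in particular
`(Γ_s - γ_s) / n < 4 / 7`. -/
theorem result (V : Type) [Fintype V] (G : SimpleGraph V) (hG : G.IsTree) :
    ((upperSignedDomination G - signedDomination G : ℤ) : ℝ) ≤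
      4 / 7 * ((Fintype.card V : ℝ) - 1) ∧
    ((upperSignedDomination G - signedDomination G : ℤ) : ℝ) / Fintype.card V < 4 / 7 := by
  have h := main hG
  have h1 : ((7 * (upperSignedDomination G - signedDomination G) : ℤ) : ℝ) ≤
      ((4 * ((Fintype.card V : ℤ) - 1) : ℤ) : ℝ) := Int.cast_le.2 h
  push_cast at h1 ⊢
  obtain ⟨r⟩ := hG.1.nonempty
  have h2 : (0 : ℝ) < Fintype.card V := Nat.cast_pos.2 (Fintype.card_pos_iff.2 ⟨r⟩)
  refine ⟨by linarith, ?_⟩
  rw [div_lt_iff₀ h2]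
  linarith

end Pool.Agent.Results.MP_1fa864_co.SignedDominationGap
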